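import Pool.Agent.P.MP_d05361_an.Shift

/-
The isometry from the coefficient space into the square integrable functions on the disc.
-/

set_option autoImplicit false

namespace Pool.Agent.P.MP_d05361_an

open scoped ENNReal InnerProductSpace ComplexConjugate Real
open Finset Filter Topology MeasureTheory Metric

/-- Normalised area measure on the unit disc. -/
noncomputable def dA : Measure ℂ := (ENNReal.ofReal π)⁻¹ • volume.restrict (ball (0 : ℂ) 1)

lemma ofReal_pi_ne_zero : ENNReal.ofReal π ≠ 0 := by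
  simp [Real.pi_pos]

instance : IsFiniteMeasure dA := by
  constructor
  unfold dA
  rw [Measure.smul_apply, Measure.restrict_apply_univ, smul_eq_mul]
  exact ENNReal.mul_lt_top (ENNReal.inv_lt_top.mpr (pos_iff_ne_zero.mpr ofReal_pi_ne_zero))
    measure_ball_lt_top

lemma ae_dA_iff {p : ℂ → Prop} : (∀ᵐ z ∂dA, p z) ↔ ∀ᵐ z ∂(volume.restrict (ball (0 : ℂ) 1)), p z := by
  unfold dA
  rw [Measure.ae_ennreal_smul_measure_iff]
  exact ENNReal.inv_ne_zero.mpr ENNReal.ofReal_ne_top

lemma ae_mem_ball : ∀ᵐ z ∂dA, z ∈ ball (0 : ℂ) 1 := by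
  rw [ae_dA_iff]
  exact ae_restrict_mem measurableSet_ball

lemma angular (n m : ℕ) :
    ∫ θ in Set.Ioo (-π) π, Complex.exp ((((m : ℂ) - n) * Complex.I) * (θ : ℂ)) =
      if n = m then 2 * (π : ℂ) else 0 := by
  rw [← integral_Ioc_eq_integral_Ioo, ← intervalIntegral.integral_of_le (by linarith [Real.pi_pos])]
  split_ifs with h
  · subst h
    simp [two_mul]
  · have hc : ((m : ℂ) - n) * Complex.I ≠ 0 := by
      refine mul_ne_zero (sub_ne_zero.mpr ?_) Complex.I_ne_zero
      exact_mod_cast (Ne.symm h)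
    rw [integral_exp_mul_complex hc, div_eq_zero_iff]
    left
    rw [sub_eq_zero, Complex.exp_eq_exp_iff_exists_int]
    refine ⟨(m : ℤ) - n, ?_⟩
    push_cast
    ring

lemma radial (k : ℕ) :
    ∫ r in Set.Ioi (0 : ℝ), (Set.Iio (1 : ℝ)).indicator (fun r : ℝ => ((r : ℂ)) ^ k) r =
      1 / ((k : ℂ) + 1) := by
  rw [setIntegral_indicator measurableSet_Iio, Set.Ioi_inter_Iio, ← integral_Ioc_eq_integral_Ioo,
    ← intervalIntegral.integral_of_le zero_le_one]
  have : (fun r : ℝ => ((r : ℂ)) ^ k) = fun r : ℝ => ((r ^ k : ℝ) : ℂ) := by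
    funext r; push_cast; rfl
  rw [this, intervalIntegral.integral_ofReal, integral_pow]
  simp

lemma integral_monomial (n m : ℕ) :
    ∫ z, conj (z ^ n) * z ^ m ∂dA = if n = m then 1 / ((n : ℂ) + 1) else 0 := by
  unfold dA
  rw [integral_smul_measure, ← integral_indicator measurableSet_ball,
    ← Complex.integral_comp_polarCoord_symm]
  have h1 : ∫ p in polarCoord.target, p.1 • (ball (0 : ℂ) 1).indicator
      (fun z : ℂ => conj (z ^ n) * z ^ m) (Complex.polarCoord.symm p) =
      ∫ p in Set.Ioi (0 : ℝ) ×ˢ Set.Ioo (-π) π,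
        (Set.Iio (1 : ℝ)).indicator (fun r : ℝ => ((r : ℂ)) ^ (n + m + 1)) p.1 *
          Complex.exp ((((m : ℂ) - n) * Complex.I) * (p.2 : ℂ)) := by
    refine setIntegral_congr_fun (measurableSet_Ioi.prod measurableSet_Ioo) ?_
    rintro ⟨r, θ⟩ ⟨hr, -⟩
    have hr0 : (0 : ℝ) < r := hr
    have hnorm : ‖Complex.polarCoord.symm (r, θ)‖ = r := by
      rw [Complex.norm_polarCoord_symm, abs_of_pos hr0]
    by_cases h : r < 1
    · have hb : Complex.polarCoord.symm (r, θ) ∈ ball (0 : ℂ) 1 := by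
        rw [mem_ball_zero_iff, hnorm]; exact h
      simp only
      rw [Set.indicator_of_mem hb, Set.indicator_of_mem (show r ∈ Set.Iio (1 : ℝ) from h)]
      have hz : Complex.polarCoord.symm (r, θ) = r * Complex.exp (θ * Complex.I) := by
        rw [Complex.polarCoord_symm_apply, Complex.exp_mul_I]
        simp
      rw [hz, mul_pow, mul_pow, map_mul, ← Complex.exp_nat_mul, ← Complex.exp_nat_mul,
        ← Complex.exp_conj]
      simp only [map_pow, Complex.conj_ofReal, map_mul, Complex.conj_I, map_natCast,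
        Complex.real_smul]
      have : Complex.exp (((m : ℂ) - n) * Complex.I * θ) =
          Complex.exp (n * (θ * -Complex.I)) * Complex.exp (m * (θ * Complex.I)) := by
        rw [← Complex.exp_add]
        congr 1
        ring
      rw [this]
      ring
    · have hb : Complex.polarCoord.symm (r, θ) ∉ ball (0 : ℂ) 1 := by
        rw [mem_ball_zero_iff, hnorm]; exact h
      simp only
      rw [Set.indicator_of_notMem hb, Set.indicator_of_notMem (show r ∉ Set.Iio (1 : ℝ) from h)]
      simp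
  rw [h1, Measure.volume_eq_prod,
    setIntegral_prod_mul (fun r : ℝ => (Set.Iio (1 : ℝ)).indicator
      (fun r : ℝ => ((r : ℂ)) ^ (n + m + 1)) r)
      (fun θ : ℝ => Complex.exp ((((m : ℂ) - n) * Complex.I) * (θ : ℂ))), radial, angular]
  split_ifs with h
  · subst h
    have hpi : (π : ℂ) ≠ 0 := by exact_mod_cast Real.pi_pos.ne'
    have hn : (n : ℂ) + 1 ≠ 0 := by exact_mod_cast Nat.succ_ne_zero n
    have hn2 : ((n + n + 1 : ℕ) : ℂ) + 1 = 2 * ((n : ℂ) + 1) := by push_cast; ring
    rw [hn2, ENNReal.toReal_inv, ENNReal.toReal_ofReal Real.pi_pos.le, Complex.real_smul]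
    push_cast
    field_simp
  · simp

/-- The normalised monomials. -/
noncomputable def mono (n : ℕ) (z : ℂ) : ℂ := (Real.sqrt ((n : ℝ) + 1) : ℂ) * z ^ n

lemma norm_mono_le (n : ℕ) {z : ℂ} {r : ℝ} (hz : ‖z‖ ≤ r) : ‖mono n z‖ ≤ ((n : ℝ) + 1) * r ^ n := by
  unfold mono
  rw [norm_mul, norm_pow, Complex.norm_real, Real.norm_eq_abs, abs_of_nonneg (Real.sqrt_nonneg _)]
  refine mul_le_mul ?_ (pow_le_pow_left₀ (norm_nonneg _) hz n) (by positivity) (by positivity)
  rw [Real.sqrt_le_left (by positivity)]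
  have : (0 : ℝ) ≤ n := by positivity
  nlinarith

lemma memLp_mono (n : ℕ) : MemLp (mono n) 2 dA := by
  refine MemLp.of_bound ?_ (((n : ℝ) + 1) * 1 ^ n) ?_
  · apply Continuous.aestronglyMeasurable
    unfold mono
    fun_prop
  · filter_upwards [ae_mem_ball] with z hz
    exact norm_mono_le n (mem_ball_zero_iff.mp hz).le

/-- The normalised monomials as elements of the space of square integrable functions. -/
noncomputable def vv (n : ℕ) : Lp ℂ 2 dA := (memLp_mono n).toLp

lemma orthonormal_vv : Orthonormal ℂ vv := by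
  rw [orthonormal_iff_ite]
  intro i j
  rw [L2.inner_def]
  have h1 : ∀ᵐ z ∂dA, ⟪vv i z, vv j z⟫_ℂ =
      ((Real.sqrt ((i : ℝ) + 1) : ℂ) * (Real.sqrt ((j : ℝ) + 1) : ℂ)) *
        (conj (z ^ i) * z ^ j) := by
    filter_upwards [(memLp_mono i).coeFn_toLp, (memLp_mono j).coeFn_toLp] with z hi hj
    unfold vv
    rw [hi, hj]
    unfold mono
    simp only [RCLike.inner_apply, map_mul, Complex.conj_ofReal]
    ring
  rw [integral_congr_ae h1, integral_const_mul, integral_monomial]
  split_ifs with h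
  · subst h
    rw [← Complex.ofReal_mul, Real.mul_self_sqrt (by positivity)]
    have hn : (i : ℂ) + 1 ≠ 0 := by exact_mod_cast Nat.succ_ne_zero i
    push_cast
    field_simp
  · simp

/-- The isometry into the square integrable functions. -/
noncomputable def U : E →ₗᵢ[ℂ] Lp ℂ 2 dA := orthonormal_vv.orthogonalFamily.linearIsometry

lemma hasSum_U (x : E) : HasSum (fun i => x i • vv i) (U x) := by
  have := orthonormal_vv.orthogonalFamily.hasSum_linearIsometry x
  simp only [LinearIsometry.toSpanSingleton_apply] at this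
  exact this

/-- The holomorphic function with normalised coefficient sequence `x`. -/
noncomputable def Phi (x : E) (z : ℂ) : ℂ := ∑' n, x n * mono n z

lemma summable_bound (x : E) {r : ℝ} (hr0 : 0 ≤ r) (hr : r < 1) :
    Summable fun n : ℕ => ‖x‖ * (((n : ℝ) + 1) * r ^ n) := by
  refine Summable.mul_left _ ?_
  have h1 : Summable fun n : ℕ => (n : ℝ) ^ 1 * r ^ n :=
    summable_pow_mul_geometric_of_norm_lt_one 1 (by rwa [Real.norm_eq_abs, abs_of_nonneg hr0])
  have h2 : Summable fun n : ℕ => r ^ n := summable_geometric_of_lt_one hr0 hr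
  refine (h1.add h2).congr fun n => ?_
  ring

lemma norm_term_le (x : E) (n : ℕ) {z : ℂ} {r : ℝ} (hz : ‖z‖ ≤ r) :
    ‖x n * mono n z‖ ≤ ‖x‖ * (((n : ℝ) + 1) * r ^ n) := by
  rw [norm_mul]
  exact mul_le_mul (lp.norm_apply_le_norm (by norm_num) x n) (norm_mono_le n hz) (norm_nonneg _)
    (norm_nonneg _)

lemma summable_Phi (x : E) {z : ℂ} (hz : z ∈ ball (0 : ℂ) 1) :
    Summable fun n => x n * mono n z :=
  Summable.of_norm_bounded (summable_bound x (norm_nonneg z) (mem_ball_zero_iff.mp hz))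
    fun n => norm_term_le x n le_rfl

lemma differentiableOn_Phi (x : E) : DifferentiableOn ℂ (Phi x) (ball 0 1) := by
  intro z hz
  have hz1 : ‖z‖ < 1 := mem_ball_zero_iff.mp hz
  obtain ⟨r, hzr, hr1⟩ := exists_between hz1
  have hr0 : 0 ≤ r := (norm_nonneg z).trans hzr.le
  have h : DifferentiableOn ℂ (fun w : ℂ => ∑' n, x n * mono n w) (ball 0 r) := by
    refine Complex.differentiableOn_tsum_of_summable_norm (summable_bound x hr0 hr1) ?_
      isOpen_ball ?_
    · intro n
      apply Differentiable.differentiableOn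
      unfold mono
      fun_prop
    · intro n w hw
      exact norm_term_le x n (mem_ball_zero_iff.mp hw).le
  exact (h.differentiableAt (isOpen_ball.mem_nhds (mem_ball_zero_iff.mpr hzr))).differentiableWithinAt

lemma U_ae_eq (x : E) : (U x : ℂ → ℂ) =ᵐ[dA] Phi x := by
  have h1 := (hasSum_U x).tendsto_sum_nat
  obtain ⟨ns, hns, h2⟩ := (tendstoInMeasure_of_tendsto_Lp h1).exists_seq_tendsto_ae
  have h3 : ∀ N : ℕ, ∀ᵐ z ∂dA,
      (∑ i ∈ range N, x i • vv i : Lp ℂ 2 dA) z = ∑ i ∈ range N, x i * mono i z := by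
    intro N
    induction N with
    | zero =>
      simp only [range_zero, sum_empty]
      exact Lp.coeFn_zero ℂ 2 dA
    | succ N ih =>
      filter_upwards [ih, Lp.coeFn_add (∑ i ∈ range N, x i • vv i) (x N • vv N),
        Lp.coeFn_smul (x N) (vv N), (memLp_mono N).coeFn_toLp] with z h1 h2 h3 h4
      rw [sum_range_succ, sum_range_succ, h2, Pi.add_apply, h1, h3, Pi.smul_apply]
      unfold vv
      rw [h4, smul_eq_mul]
  rw [← ae_all_iff] at h3
  filter_upwards [h2, h3, ae_mem_ball] with z hz2 hz3 hz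
  simp only [hz3] at hz2
  exact tendsto_nhds_unique hz2
    (((summable_Phi x hz).hasSum.tendsto_sum_nat).comp hns.tendsto_atTop)

lemma Phi_add (x y : E) {z : ℂ} (hz : z ∈ ball (0 : ℂ) 1) : Phi (x + y) z = Phi x z + Phi y z := by
  unfold Phi
  rw [← (summable_Phi x hz).tsum_add (summable_Phi y hz)]
  refine tsum_congr fun n => ?_
  simp [add_mul]

lemma Phi_smul (c : ℂ) (x : E) (z : ℂ) : Phi (c • x) z = c * Phi x z := by
  unfold Phi
  rw [← tsum_mul_left]
  refine tsum_congr fun n => ?_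
  simp [mul_assoc]

lemma Phi_zero_apply (x : E) : Phi x 0 = x 0 := by
  unfold Phi
  rw [tsum_eq_single 0]
  · simp [mono]
  · intro n hn
    simp [mono, hn]

lemma Phi_T (x : E) {z : ℂ} (hz : z ∈ ball (0 : ℂ) 1) : Phi (T x) z = z * Phi x z := by
  unfold Phi
  rw [(summable_Phi (T x) hz).tsum_eq_zero_add, T_apply_zero, zero_mul, zero_add, ← tsum_mul_left]
  refine tsum_congr fun n => ?_
  rw [T_apply_succ]
  unfold mono
  have h : W n 1 * Real.sqrt (((n + 1 : ℕ) : ℝ) + 1) = Real.sqrt ((n : ℝ) + 1) := by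
    unfold W
    rw [← Real.sqrt_mul (by positivity)]
    congr 1
    push_cast
    field_simp
  rw [← h]
  push_cast
  ring

lemma Phi_T_pow (x : E) (n : ℕ) {z : ℂ} (hz : z ∈ ball (0 : ℂ) 1) :
    Phi ((T ^ n) x) z = z ^ n * Phi x z := by
  induction n with
  | zero => simp
  | succ n ih => rw [pow_succ', mul_apply_eq_comp, Phi_T _ hz, ih]; ring

lemma eLpNorm_Phi (x : E) : eLpNorm (Phi x) 2 dA = ‖x‖ₑ := by
  rw [← eLpNorm_congr_ae (U_ae_eq x), ← Lp.enorm_def, U.enorm_map]

end Pool.Agent.P.MP_d05361_an
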