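import Pool.Agent.P.MP_d05361_an.Shift

/-
Successive correction: vectors f, g, phi with phi orthogonal to all T^(n+1) f and T^(n+1) g,
f 0 = 1, g 0 = 0 and inner phi g = 1.
-/

set_option autoImplicit false

namespace Pool.Agent.P.MP_d05361_an

open scoped ENNReal InnerProductSpace ComplexConjugate
open Finset Filter Topology

/-- Support below `K`. -/
def FS (K : ℕ) (x : E) : Prop := ∀ k, K ≤ k → x k = 0

/-- Total size of the unwanted correlations. -/
def Err (φ u : E) (η : ℝ) : Prop :=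
  ∀ L : ℕ, ∑ n ∈ range L, ‖⟪φ, (T ^ (n + 1)) u⟫_ℂ‖ ≤ η

lemma FS.mono {K K' : ℕ} {x : E} (h : FS K x) (hK : K ≤ K') : FS K' x :=
  fun k hk => h k (hK.trans hk)

lemma Err.mono {φ u : E} {η η' : ℝ} (h : Err φ u η) (hη : η ≤ η') : Err φ u η' :=
  fun L => (h L).trans hη

lemma Err.nonneg {φ u : E} {η : ℝ} (h : Err φ u η) : 0 ≤ η := by
  simpa using h 0

lemma norm_apply_le (x : E) (i : ℕ) : ‖x i‖ ≤ ‖x‖ := lp.norm_apply_le_norm (by norm_num) x i

/-- One coordinate of `T^(m+1) v` far out is small. -/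
lemma norm_T_pow_apply_le {K : ℕ} {v : E} (hv : FS K v) (m M : ℕ) :
    ‖(T ^ (m + 1)) v M‖ ≤
      if m + 1 ≤ M ∧ M < K + (m + 1) then Real.sqrt ((K : ℝ) / (M + 1)) * ‖v‖ else 0 := by
  split_ifs with h
  · obtain ⟨j, rfl⟩ : ∃ j, M = j + (m + 1) := ⟨M - (m + 1), by omega⟩
    rw [T_pow_apply_add, norm_mul, Complex.norm_real, Real.norm_eq_abs, abs_of_pos (W_pos _ _)]
    refine mul_le_mul ?_ (norm_apply_le v j) (norm_nonneg _) (Real.sqrt_nonneg _)
    unfold W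
    apply Real.sqrt_le_sqrt
    have hj : (j : ℝ) + 1 ≤ K := by
      have : j + 1 ≤ K := by omega
      exact_mod_cast this
    push_cast
    rw [show (j : ℝ) + ((m : ℝ) + 1) + 1 = (j : ℝ) + (m + 1) + 1 from rfl]
    gcongr
  · by_cases h1 : m + 1 ≤ M
    · obtain ⟨j, rfl⟩ : ∃ j, M = j + (m + 1) := ⟨M - (m + 1), by omega⟩
      rw [T_pow_apply_add, hv j (by omega)]
      simp
    · rw [T_pow_apply_lt _ _ _ (by omega)]
      simp

lemma sum_norm_T_pow_apply_le {K : ℕ} {v : E} (hv : FS K v) (L M : ℕ) :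
    ∑ m ∈ range L, ‖(T ^ (m + 1)) v M‖ ≤ K * (Real.sqrt ((K : ℝ) / (M + 1)) * ‖v‖) := by
  refine (sum_le_sum fun m _ => norm_T_pow_apply_le hv m M).trans ?_
  rw [← sum_filter, sum_const, nsmul_eq_mul]
  refine mul_le_mul_of_nonneg_right ?_ (by positivity)
  have : ((range L).filter (fun m => m + 1 ≤ M ∧ M < K + (m + 1))) ⊆ Ico (M - K) M := by
    intro m hm
    simp only [mem_filter, mem_range] at hm
    simp only [mem_Ico]
    omega
  have h2 := card_le_card this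
  rw [Nat.card_Ico] at h2
  have : ((range L).filter (fun m => m + 1 ≤ M ∧ M < K + (m + 1))).card ≤ K := by omega
  exact_mod_cast this

lemma tail_small {K : ℕ} {v : E} (hv : FS K v) {δ : ℝ} (hδ : 0 < δ) :
    ∃ N₀ : ℕ, ∀ M, N₀ ≤ M → ∀ L, ∑ m ∈ range L, ‖(T ^ (m + 1)) v M‖ ≤ δ := by
  have h1 : Tendsto (fun M : ℕ => (K : ℝ) / ((M : ℝ) + 1)) atTop (𝓝 0) := by
    apply Tendsto.div_atTop tendsto_const_nhds
    exact tendsto_atTop_add_const_right _ _ tendsto_natCast_atTop_atTop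
  have h2 : Tendsto (fun M : ℕ => K * (Real.sqrt ((K : ℝ) / ((M : ℝ) + 1)) * ‖v‖)) atTop
      (𝓝 (K * (Real.sqrt 0 * ‖v‖))) :=
    ((h1.sqrt).mul_const _).const_mul _
  simp only [Real.sqrt_zero, zero_mul, mul_zero] at h2
  obtain ⟨N₀, hN₀⟩ := eventually_atTop.mp (h2.eventually (ge_mem_nhds hδ))
  exact ⟨N₀, fun M hM L => (sum_norm_T_pow_apply_le hv L M).trans (hN₀ M hM)⟩

lemma inv_W_le {N n : ℕ} (h : n ≤ N + 1) : (W N n)⁻¹ ≤ 2 := by
  have hW := W_pos N n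
  rw [inv_le_comm₀ hW (by norm_num)]
  apply (pow_le_pow_iff_left₀ (by norm_num) hW.le two_ne_zero).mp
  rw [W_sq, le_div_iff₀ (by positivity)]
  have : (n : ℝ) ≤ N + 1 := by exact_mod_cast h
  have : (0 : ℝ) ≤ N := by positivity
  nlinarith

/-- The correction step. -/
lemma step {K : ℕ} (hK : 1 ≤ K) {u v φ : E} (hu : FS K u) (hv : FS K v) (hφ : FS K φ)
    {η ε δ : ℝ} (hη : Err φ u η) (hε : 0 < ε) (hδ : 0 < δ) :
    ∃ (K' : ℕ) (u' φ' : E), K ≤ K' ∧ FS K' u' ∧ FS K' φ' ∧ ‖u' - u‖ ≤ ε ∧ ‖φ' - φ‖ ≤ 2 * η / ε ∧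
      Err φ' u' δ ∧ (∀ η', Err φ v η' → Err φ' v (η' + δ)) ∧ u' 0 = u 0 ∧
      ⟪φ', u'⟫_ℂ = ⟪φ, u⟫_ℂ ∧ ⟪φ', v⟫_ℂ = ⟪φ, v⟫_ℂ := by
  have hη0 := hη.nonneg
  set δ' : ℝ := δ / (2 * η / ε + 1) with hδ'
  have hpos : 0 < 2 * η / ε + 1 := by positivity
  have hδ'0 : 0 < δ' := by positivity
  obtain ⟨N₁, hN₁⟩ := tail_small hu hδ'0
  obtain ⟨N₂, hN₂⟩ := tail_small hv hδ'0
  set N : ℕ := K + N₁ + N₂ with hN
  set c : ℕ → ℂ := fun n => ⟪φ, (T ^ (n + 1)) u⟫_ℂ with hc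
  set b : ℕ → ℂ := fun n => -conj (c n) / ((ε : ℂ) * (W N (n + 1) : ℂ)) with hb
  set ρ : E := ∑ n ∈ range K, b n • e (N + (n + 1)) with hρ
  have hc0 : ∀ n, K ≤ n → c n = 0 := by
    intro n hn
    apply inner_eq_zero_of_disjoint
    intro i
    by_cases hi : K ≤ i
    · exact Or.inl (hφ i hi)
    · exact Or.inr (T_pow_apply_lt _ _ _ (by omega))
  have hbn : ∀ n ∈ range K, ‖b n‖ ≤ 2 / ε * ‖c n‖ := by
    intro n hn
    have hn' : n < K := mem_range.mp hn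
    have h1 := inv_W_le (N := N) (n := n + 1) (by omega)
    have h2 := W_pos N (n + 1)
    simp only [hb, norm_div, norm_neg, RCLike.norm_conj, norm_mul, Complex.norm_real,
      Real.norm_eq_abs, abs_of_pos hε, abs_of_pos h2]
    rw [div_eq_mul_inv, mul_inv, mul_comm]
    refine mul_le_mul_of_nonneg_right ?_ (norm_nonneg _)
    rw [div_eq_mul_inv, mul_comm 2]
    exact mul_le_mul_of_nonneg_left h1 (by positivity)
  have hbsum : ∑ n ∈ range K, ‖b n‖ ≤ 2 * η / ε := by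
    refine (sum_le_sum hbn).trans ?_
    rw [← mul_sum]
    have := hη K
    calc 2 / ε * ∑ i ∈ range K, ‖c i‖ ≤ 2 / ε * η := by gcongr
      _ = 2 * η / ε := by ring
  have hρinner : ∀ y : E, ⟪ρ, y⟫_ℂ = ∑ n ∈ range K, conj (b n) * y (N + (n + 1)) := by
    intro y
    rw [hρ, sum_inner]
    refine sum_congr rfl fun n _ => ?_
    rw [inner_smul_left, inner_e_left]
  have hρapply : ∀ k, ρ k = ∑ n ∈ range K, b n * e (N + (n + 1)) k := by
    intro k
    rw [hρ, lp.coeFn_sum, Finset.sum_apply]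
    refine sum_congr rfl fun n _ => ?_
    simp
  have hρsmall : ∀ y : E, (∀ M, N ≤ M → ∀ L, ∑ m ∈ range L, ‖(T ^ (m + 1)) y M‖ ≤ δ') →
      ∀ L, ∑ m ∈ range L, ‖⟪ρ, (T ^ (m + 1)) y⟫_ℂ‖ ≤ δ := by
    intro y hy L
    calc ∑ m ∈ range L, ‖⟪ρ, (T ^ (m + 1)) y⟫_ℂ‖
        ≤ ∑ m ∈ range L, ∑ n ∈ range K, ‖b n‖ * ‖(T ^ (m + 1)) y (N + (n + 1))‖ := by
          refine sum_le_sum fun m _ => ?_
          rw [hρinner]
          refine (norm_sum_le _ _).trans (sum_le_sum fun n _ => ?_)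
          rw [norm_mul, RCLike.norm_conj]
      _ = ∑ n ∈ range K, ‖b n‖ * ∑ m ∈ range L, ‖(T ^ (m + 1)) y (N + (n + 1))‖ := by
          rw [sum_comm]
          refine sum_congr rfl fun n _ => ?_
          rw [mul_sum]
      _ ≤ ∑ n ∈ range K, ‖b n‖ * δ' := by
          refine sum_le_sum fun n _ => ?_
          exact mul_le_mul_of_nonneg_left (hy _ (by omega) L) (norm_nonneg _)
      _ = (∑ n ∈ range K, ‖b n‖) * δ' := by rw [sum_mul]
      _ ≤ (2 * η / ε + 1) * δ' := by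
          refine mul_le_mul_of_nonneg_right ?_ hδ'0.le
          linarith
      _ = δ := by
          rw [hδ']
          field_simp
  have hρlow : ∀ y : E, FS (N + 1) y → ⟪ρ, y⟫_ℂ = 0 := by
    intro y hy
    rw [hρinner]
    refine sum_eq_zero fun n _ => ?_
    rw [hy _ (by omega), mul_zero]
  have hρe : ∀ m, (ε : ℂ) * ⟪ρ, (T ^ (m + 1)) (e N)⟫_ℂ = - c m := by
    intro m
    rw [hρinner]
    have hval : ∀ n, (T ^ (m + 1)) (e N) (N + (n + 1)) =
        if n = m then (W N (m + 1) : ℂ) else 0 := by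
      intro n
      by_cases h : m + 1 ≤ N + (n + 1)
      · obtain ⟨j, hj⟩ : ∃ j, N + (n + 1) = j + (m + 1) := ⟨N + (n + 1) - (m + 1), by omega⟩
        rw [hj, T_pow_apply_add, e_apply]
        by_cases hnm : n = m
        · have : j = N := by omega
          simp [hnm, this]
        · have : j ≠ N := by omega
          simp [hnm, this]
      · rw [T_pow_apply_lt _ _ _ (by omega)]
        have : n ≠ m := by omega
        simp [this]
    simp only [hval, mul_ite, mul_zero]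
    rw [sum_ite_eq' (range K) m]
    by_cases hm : m ∈ range K
    · rw [if_pos hm]
      have h2 : (W N (m + 1) : ℂ) ≠ 0 := by exact_mod_cast (W_pos N (m + 1)).ne'
      have h3 : (ε : ℂ) ≠ 0 := by exact_mod_cast hε.ne'
      simp only [hb, map_div₀, map_neg, Complex.conj_conj, map_mul, Complex.conj_ofReal]
      field_simp
    · rw [if_neg hm, hc0 m (by simpa using hm)]
      simp
  have hφe : ∀ m, ⟪φ, (T ^ m) (e N)⟫_ℂ = 0 := by
    intro m
    apply inner_eq_zero_of_disjoint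
    intro i
    by_cases hi : K ≤ i
    · exact Or.inl (hφ i hi)
    · right
      by_cases h : m ≤ i
      · obtain ⟨j, rfl⟩ : ∃ j, i = j + m := ⟨i - m, by omega⟩
        rw [T_pow_apply_add, e_apply, if_neg (by omega), mul_zero]
      · exact T_pow_apply_lt _ _ _ (by omega)
  have heN : FS (N + 1) (e N) := by
    intro k hk
    rw [e_apply, if_neg (by omega)]
  refine ⟨N + K + 1, u + (ε : ℂ) • e N, φ + ρ, by omega, ?_, ?_, ?_, ?_, ?_, ?_, ?_, ?_, ?_⟩
  · intro k hk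
    simp only [lp.coeFn_add, Pi.add_apply, lp.coeFn_smul, Pi.smul_apply]
    rw [hu k (by omega), heN k (by omega)]
    simp
  · intro k hk
    simp only [lp.coeFn_add, Pi.add_apply]
    rw [hφ k (by omega), hρapply, zero_add]
    refine sum_eq_zero fun n hn => ?_
    have := mem_range.mp hn
    rw [e_apply, if_neg (by omega), mul_zero]
  · rw [add_sub_cancel_left, norm_smul, norm_e]
    simp [abs_of_pos hε]
  · rw [add_sub_cancel_left, hρ]
    refine (norm_sum_le _ _).trans (le_trans (le_of_eq ?_) hbsum)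
    refine sum_congr rfl fun n _ => ?_
    rw [norm_smul, norm_e, mul_one]
  · intro L
    refine le_trans (le_of_eq ?_) (hρsmall u (fun M hM => hN₁ M (by omega)) L)
    refine sum_congr rfl fun m _ => ?_
    congr 1
    rw [map_add, map_smul, inner_add_left, inner_add_right, inner_add_right, inner_smul_right,
      inner_smul_right, hφe, hρe]
    simp only [hc]
    ring
  · intro η' hη' L
    refine le_trans ?_ (add_le_add (hη' L) (hρsmall v (fun M hM => hN₂ M (by omega)) L))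
    rw [← sum_add_distrib]
    refine sum_le_sum fun m _ => ?_
    rw [inner_add_left]
    exact norm_add_le _ _
  · simp only [lp.coeFn_add, Pi.add_apply, lp.coeFn_smul, Pi.smul_apply]
    rw [e_apply, if_neg (by omega)]
    simp
  · have h0 := hφe 0
    rw [pow_zero, one_apply_eq_self] at h0
    rw [inner_add_left, inner_add_right, inner_add_right, inner_smul_right, inner_smul_right, h0,
      hρlow _ heN, hρlow _ (hu.mono (by omega))]
    simp
  · rw [inner_add_left, hρlow _ (hv.mono (by omega)), add_zero]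

/-- The invariant of stage `j` of the construction. -/
def Stage (j : ℕ) (s : E × E × E) : Prop :=
  ∃ K : ℕ, 1 ≤ K ∧ FS K s.1 ∧ FS K s.2.1 ∧ FS K s.2.2 ∧ s.1 0 = 1 ∧ s.2.1 0 = 0 ∧
    ⟪s.2.2, s.2.1⟫_ℂ = 1 ∧ Err s.2.2 s.1 ((1 / 4) ^ j) ∧ Err s.2.2 s.2.1 ((1 / 4) ^ j)

lemma stage_zero : Stage 0 (e 0, e 1, e 1) := by
  refine ⟨2, by norm_num, ?_, ?_, ?_, ?_, ?_, ?_, ?_, ?_⟩
  · intro k hk
    rw [e_apply, if_neg (by omega)]
  · intro k hk
    rw [e_apply, if_neg (by omega)]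
  · intro k hk
    rw [e_apply, if_neg (by omega)]
  · simp [e_apply]
  · simp [e_apply]
  · rw [inner_e_left]
    simp [e_apply]
  · intro L
    simp only [inner_e_left, pow_zero]
    cases L with
    | zero => simp
    | succ L =>
      rw [sum_range_succ']
      have h1 : ∑ k ∈ range L, ‖(T ^ (k + 1 + 1)) (e 0) 1‖ = 0 := by
        refine sum_eq_zero fun k _ => ?_
        rw [T_pow_apply_lt _ _ _ (by omega), norm_zero]
      rw [h1, zero_add]
      have h2 := T_pow_apply_add (e 0) (0 + 1) 0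
      simp only [zero_add] at h2 ⊢
      rw [h2, e_apply]
      simp only [if_true, mul_one, Complex.norm_real, Real.norm_eq_abs, abs_of_pos (W_pos 0 1)]
      exact W_le_one _ _
  · intro L
    simp only [inner_e_left, pow_zero]
    have h1 : ∑ k ∈ range L, ‖(T ^ (k + 1)) (e 1) 1‖ = 0 := by
      refine sum_eq_zero fun k _ => ?_
      cases k with
      | zero =>
        have h2 := T_pow_apply_add (e 1) (0 + 1) 0
        simp only [zero_add] at h2 ⊢
        rw [h2, e_apply]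
        simp
      | succ k => rw [T_pow_apply_lt _ _ _ (by omega), norm_zero]
    rw [h1]
    norm_num

lemma stage_succ (j : ℕ) (s : E × E × E) (hs : Stage j s) :
    ∃ s', Stage (j + 1) s' ∧ dist s s' ≤ 6 * (1 / 2) ^ j := by
  obtain ⟨f, g, φ⟩ := s
  obtain ⟨K, hK, hf, hg, hφ, hf0, hg0, hφg, hef, heg⟩ := hs
  simp only at hf hg hφ hf0 hg0 hφg hef heg
  have hε : (0 : ℝ) < (1 / 2) ^ j := by positivity
  have hδ : (0 : ℝ) < (1 / 4) ^ (j + 1) / 2 := by positivity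
  have h4 : ((1 : ℝ) / 4) ^ j = (1 / 2) ^ j * (1 / 2) ^ j := by
    rw [← mul_pow]; norm_num
  obtain ⟨K₁, f₁, φ₁, hK₁, hf₁, hφ₁, hdf, hdφ, hef₁, heg₁, hf₁0, -, hφ₁g⟩ :=
    step hK hf hg hφ hef hε hδ
  have heg₁' : Err φ₁ g (2 * (1 / 4) ^ j) := by
    refine (heg₁ _ heg).mono ?_
    rw [pow_succ]
    have : (0 : ℝ) < (1 / 4) ^ j := by positivity
    linarith
  obtain ⟨K₂, g₂, φ₂, hK₂, hg₂, hφ₂, hdg, hdφ', heg₂, hef₂, hg₂0, hφ₂g, -⟩ :=
    step (hK.trans hK₁) (hg.mono hK₁) hf₁ hφ₁ heg₁' hε hδ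
  refine ⟨(f₁, g₂, φ₂), ⟨K₂, by omega, hf₁.mono hK₂, hg₂, hφ₂, ?_, ?_, ?_, ?_, ?_⟩, ?_⟩
  · simp only [hf₁0, hf0]
  · simp only [hg₂0, hg0]
  · simp only [hφ₂g, hφ₁g, hφg]
  · refine (hef₂ _ hef₁).mono (le_of_eq ?_)
    ring
  · refine heg₂.mono ?_
    linarith
  · have e1 : 2 * ((1 : ℝ) / 4) ^ j / (1 / 2) ^ j = 2 * (1 / 2) ^ j := by
      rw [h4]; field_simp
    have e2 : 2 * (2 * ((1 : ℝ) / 4) ^ j) / (1 / 2) ^ j = 4 * (1 / 2) ^ j := by
      rw [h4]; field_simp; ring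
    rw [e1] at hdφ
    rw [e2] at hdφ'
    simp only [Prod.dist_eq, max_le_iff]
    refine ⟨?_, ?_, ?_⟩
    · rw [dist_comm, dist_eq_norm]; linarith
    · rw [dist_comm, dist_eq_norm]; linarith
    · rw [dist_comm, dist_eq_norm]
      have : φ₂ - φ = (φ₂ - φ₁) + (φ₁ - φ) := by abel
      rw [this]
      refine (norm_add_le _ _).trans ?_
      linarith

/-- The limit of the construction. -/
theorem exists_triple : ∃ f g φ : E, f 0 = 1 ∧ g 0 = 0 ∧ ⟪φ, g⟫_ℂ = 1 ∧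
    (∀ n, ⟪φ, (T ^ (n + 1)) f⟫_ℂ = 0) ∧ (∀ n, ⟪φ, (T ^ (n + 1)) g⟫_ℂ = 0) := by
  choose nxt hnxt hdist using stage_succ
  let seq : (j : ℕ) → {s : E × E × E // Stage j s} := fun j =>
    Nat.rec (motive := fun j => {s : E × E × E // Stage j s}) ⟨_, stage_zero⟩
      (fun j s => ⟨nxt j s.1 s.2, hnxt j s.1 s.2⟩) j
  have hd : ∀ j, dist (seq j).1 (seq (j + 1)).1 ≤ 6 * (1 / 2) ^ j := fun j =>
    hdist j (seq j).1 (seq j).2
  have hc : CauchySeq fun j => (seq j).1 := cauchySeq_of_le_geometric (1 / 2) 6 (by norm_num) hd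
  obtain ⟨⟨f, g, φ⟩, hlim⟩ := cauchySeq_tendsto_of_complete hc
  have hf : Tendsto (fun j => (seq j).1.1) atTop (𝓝 f) := (continuous_fst.tendsto _).comp hlim
  have hg : Tendsto (fun j => (seq j).1.2.1) atTop (𝓝 g) :=
    ((continuous_fst.comp continuous_snd).tendsto _).comp hlim
  have hφ : Tendsto (fun j => (seq j).1.2.2) atTop (𝓝 φ) :=
    ((continuous_snd.comp continuous_snd).tendsto _).comp hlim
  have hzero : ∀ (x : ℕ → E) (x₀ : E), Tendsto x atTop (𝓝 x₀) →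
      (∀ j, Err (seq j).1.2.2 (x j) ((1 / 4) ^ j)) → ∀ n, ⟪φ, (T ^ (n + 1)) x₀⟫_ℂ = 0 := by
    intro x x₀ hx hErr n
    have h1 : Tendsto (fun j => ⟪(seq j).1.2.2, (T ^ (n + 1)) (x j)⟫_ℂ) atTop
        (𝓝 ⟪φ, (T ^ (n + 1)) x₀⟫_ℂ) :=
      hφ.inner ((((T ^ (n + 1)).continuous).tendsto _).comp hx)
    have h2 : Tendsto (fun j => ⟪(seq j).1.2.2, (T ^ (n + 1)) (x j)⟫_ℂ) atTop (𝓝 0) := by
      rw [tendsto_zero_iff_norm_tendsto_zero]
      refine squeeze_zero (fun j => norm_nonneg _) (fun j => ?_)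
        (tendsto_pow_atTop_nhds_zero_of_lt_one (r := 1 / 4) (by norm_num) (by norm_num))
      refine le_trans ?_ (hErr j (n + 1))
      exact single_le_sum (f := fun m => ‖⟪(seq j).1.2.2, (T ^ (m + 1)) (x j)⟫_ℂ‖)
        (fun _ _ => norm_nonneg _) (mem_range.mpr (Nat.lt_succ_self n))
    exact tendsto_nhds_unique h1 h2
  refine ⟨f, g, φ, ?_, ?_, ?_, ?_, ?_⟩
  · have h1 : Tendsto (fun j => ⟪e 0, (seq j).1.1⟫_ℂ) atTop (𝓝 ⟪e 0, f⟫_ℂ) :=
      tendsto_const_nhds.inner hf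
    have h2 : (fun j => ⟪e 0, (seq j).1.1⟫_ℂ) = fun _ => 1 := by
      funext j
      obtain ⟨K, -, -, -, -, h, -⟩ := (seq j).2
      rw [inner_e_left, h]
    rw [h2, inner_e_left] at h1
    exact tendsto_nhds_unique h1 tendsto_const_nhds
  · have h1 : Tendsto (fun j => ⟪e 0, (seq j).1.2.1⟫_ℂ) atTop (𝓝 ⟪e 0, g⟫_ℂ) :=
      tendsto_const_nhds.inner hg
    have h2 : (fun j => ⟪e 0, (seq j).1.2.1⟫_ℂ) = fun _ => 0 := by
      funext j
      obtain ⟨K, -, -, -, -, -, h, -⟩ := (seq j).2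
      rw [inner_e_left, h]
    rw [h2, inner_e_left] at h1
    exact tendsto_nhds_unique h1 tendsto_const_nhds
  · have h1 : Tendsto (fun j => ⟪(seq j).1.2.2, (seq j).1.2.1⟫_ℂ) atTop (𝓝 ⟪φ, g⟫_ℂ) :=
      hφ.inner hg
    have h2 : (fun j => ⟪(seq j).1.2.2, (seq j).1.2.1⟫_ℂ) = fun _ => 1 := by
      funext j
      obtain ⟨K, -, -, -, -, -, -, h, -⟩ := (seq j).2
      exact h
    rw [h2] at h1
    exact tendsto_nhds_unique h1 tendsto_const_nhds
  · refine hzero _ f hf fun j => ?_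
    obtain ⟨K, -, -, -, -, -, -, -, h, -⟩ := (seq j).2
    exact h
  · refine hzero _ g hg fun j => ?_
    obtain ⟨K, -, -, -, -, -, -, -, -, h⟩ := (seq j).2
    exact h

end Pool.Agent.P.MP_d05361_an
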