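import Pool.Agent.P.MP_d05361_an.Construct

/-
The counterexample at the level of the weighted shift.
-/

set_option autoImplicit false

namespace Pool.Agent.P.MP_d05361_an

open scoped ENNReal InnerProductSpace ComplexConjugate
open Finset Filter Topology

/-- Coefficients of the weight `(1 - |z|^2)^N` on the monomials. -/
noncomputable def dd (N j : ℕ) : ℝ :=
  ((j + 1).factorial * N.factorial : ℝ) / ((j + N + 1).factorial : ℝ)

lemma dd_pos (N j : ℕ) : 0 < dd N j := by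
  unfold dd
  positivity

lemma dd_zero (j : ℕ) : dd 0 j = 1 := by
  unfold dd
  simp only [Nat.factorial_zero, Nat.cast_one, mul_one, add_zero]
  exact div_self (by positivity)

lemma dd_succ_right (N j : ℕ) : dd N (j + 1) = dd N j * (((j : ℝ) + 2) / ((j : ℝ) + N + 2)) := by
  unfold dd
  rw [show j + 1 + N + 1 = (j + N + 1) + 1 by ring, Nat.factorial_succ (j + N + 1),
    Nat.factorial_succ (j + 1)]
  push_cast
  field_simp
  ring

lemma dd_succ_left (N j : ℕ) : dd (N + 1) j = dd N j - dd N (j + 1) * W j 1 ^ 2 := by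
  rw [dd_succ_right, W_sq]
  unfold dd
  rw [show j + (N + 1) + 1 = (j + N + 1) + 1 by ring, Nat.factorial_succ (j + N + 1),
    Nat.factorial_succ N]
  push_cast
  field_simp
  ring

lemma dd_anti (N : ℕ) : Antitone (dd N) := by
  refine antitone_nat_of_succ_le fun j => ?_
  rw [dd_succ_right]
  refine mul_le_of_le_one_right (dd_pos N j).le ?_
  rw [div_le_one (by positivity)]
  have : (0 : ℝ) ≤ N := by positivity
  linarith

lemma hasSum_dd (N : ℕ) : ∀ x y : E, (∀ n, ⟪(T ^ n) x, (T ^ n) y⟫_ℂ = 0) →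
    HasSum (fun j => (dd N j : ℂ) * (conj (x j) * y j)) 0 := by
  induction N with
  | zero =>
    intro x y h
    have h0 := h 0
    simp only [pow_zero, one_apply_eq_self] at h0
    have := hasSum_inner' x y
    rw [h0] at this
    simpa [dd_zero] using this
  | succ N ih =>
    intro x y h
    have h1 := ih x y h
    have h2 := ih (T x) (T y) (fun n => by
      have := h (n + 1)
      rwa [pow_succ, mul_apply_eq_comp, mul_apply_eq_comp] at this)
    rw [← hasSum_nat_add_iff' 1] at h2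
    simp only [range_one, sum_singleton, T_apply_zero, mul_zero, sub_zero, T_apply_succ] at h2
    have h3 := h1.sub h2
    rw [sub_zero] at h3
    refine HasSum.congr_fun h3 ?_
    intro j
    rw [dd_succ_left]
    simp only [map_mul, Complex.conj_ofReal]
    push_cast
    ring

lemma first_coeff_eq_zero (x y : E) (h : ∀ n, ⟪(T ^ n) x, (T ^ n) y⟫_ℂ = 0) (l : ℕ)
    (hl : ∀ j, j < l → x j = 0) : conj (x l) * y l = 0 := by
  have hs : Summable fun j => ‖conj (x j) * y j‖ := by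
    have := lp.summable_mul (p := 2) (q := 2) (by rw [Real.holderConjugate_iff]; norm_num) x y
    simpa using this
  set S : ℝ := ∑' j, ‖conj (x j) * y j‖ with hS
  have hbound : ∀ N : ℕ, ‖conj (x l) * y l‖ ≤ ((l : ℝ) + 2) / ((l : ℝ) + N + 2) * S := by
    intro N
    have h1 := hasSum_dd N x y h
    rw [← hasSum_nat_add_iff' (l + 1)] at h1
    have h2 : ∑ j ∈ range (l + 1), (dd N j : ℂ) * (conj (x j) * y j)
        = (dd N l : ℂ) * (conj (x l) * y l) := by
      rw [sum_range_succ, sum_eq_zero, zero_add]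
      intro j hj
      rw [hl j (mem_range.mp hj)]
      simp
    rw [h2, zero_sub] at h1
    have hs' : Summable fun j => ‖conj (x (j + (l + 1))) * y (j + (l + 1))‖ :=
      (summable_nat_add_iff (f := fun j => ‖conj (x j) * y j‖) (l + 1)).mpr hs
    have h3 : ‖-((dd N l : ℂ) * (conj (x l) * y l))‖ ≤
        dd N (l + 1) * ∑' j, ‖conj (x (j + (l + 1))) * y (j + (l + 1))‖ := by
      refine h1.norm_le_of_bounded (hs'.hasSum.mul_left (dd N (l + 1))) fun j => ?_
      rw [norm_mul, Complex.norm_real, Real.norm_eq_abs, abs_of_pos (dd_pos _ _)]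
      exact mul_le_mul_of_nonneg_right (dd_anti N (by omega)) (norm_nonneg _)
    have h4 : ∑' j, ‖conj (x (j + (l + 1))) * y (j + (l + 1))‖ ≤ S := by
      rw [hS, ← hs.sum_add_tsum_nat_add (l + 1)]
      have : 0 ≤ ∑ i ∈ range (l + 1), ‖conj (x i) * y i‖ := sum_nonneg fun _ _ => norm_nonneg _
      linarith
    rw [norm_neg, norm_mul, Complex.norm_real, Real.norm_eq_abs, abs_of_pos (dd_pos _ _),
      dd_succ_right, mul_assoc] at h3
    have h5 := le_of_mul_le_mul_left h3 (dd_pos N l)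
    refine h5.trans ?_
    exact mul_le_mul_of_nonneg_left h4 (by positivity)
  have hlim : Tendsto (fun N : ℕ => ((l : ℝ) + 2) / ((l : ℝ) + N + 2) * S) atTop (𝓝 (0 * S)) := by
    refine Tendsto.mul_const _ ?_
    apply Tendsto.div_atTop tendsto_const_nhds
    apply tendsto_atTop_add_const_right
    apply tendsto_atTop_add_const_left
    exact tendsto_natCast_atTop_atTop
  rw [zero_mul] at hlim
  have := ge_of_tendsto' hlim hbound
  exact norm_le_zero_iff.mp this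

/-- Two vectors, one with nonzero zeroth coordinate and one nonzero, do not generate orthogonal
invariant subspaces. -/
lemma exists_inner_ne_zero (x y : E) (hx : x 0 ≠ 0) (hy : y ≠ 0) :
    ∃ n m : ℕ, ⟪(T ^ n) x, (T ^ m) y⟫_ℂ ≠ 0 := by
  classical
  by_contra hcon
  push Not at hcon
  have hex : ∃ l, y l ≠ 0 := by
    by_contra h
    push Not at h
    exact hy (lp.ext (funext h))
  set l := Nat.find hex with hl
  have hyl : y l ≠ 0 := Nat.find_spec hex
  have h := first_coeff_eq_zero ((T ^ l) x) y (fun n => by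
    rw [← mul_apply_eq_comp, ← pow_add]
    exact hcon _ _) l (fun j hj => T_pow_apply_lt _ _ _ hj)
  have h2 := T_pow_apply_add x l 0
  rw [zero_add] at h2
  rw [h2] at h
  have hW : (W 0 l : ℂ) ≠ 0 := by exact_mod_cast (W_pos 0 l).ne'
  simp [hyl, hx, hW] at h

/-- The operator of multiplication by `z^n + a z^m`. -/
noncomputable def Q (n m : ℕ) (a : ℂ) : E →L[ℂ] E := T ^ n + a • T ^ m

lemma exists_Q_inner_ne_zero (x y : E) (hx : x 0 ≠ 0) (hy : y ≠ 0) :
    ∃ (n m : ℕ) (a : ℂ), ⟪Q n m a x, Q n m a y⟫_ℂ ≠ 0 := by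
  by_contra hcon
  push Not at hcon
  obtain ⟨n, m, hnm⟩ := exists_inner_ne_zero x y hx hy
  have hdiag : ∀ k, ⟪(T ^ k) x, (T ^ k) y⟫_ℂ = 0 := by
    intro k
    have := hcon k k 0
    simpa [Q] using this
  have hexp : ∀ a : ℂ, ⟪Q n m a x, Q n m a y⟫_ℂ =
      a * ⟪(T ^ n) x, (T ^ m) y⟫_ℂ + conj a * ⟪(T ^ m) x, (T ^ n) y⟫_ℂ := by
    intro a
    simp only [Q, add_apply, smul_apply, inner_add_left,
      inner_add_right, inner_smul_left, inner_smul_right, hdiag]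
    ring
  have h1 := hexp 1
  have h2 := hexp Complex.I
  rw [hcon] at h1 h2
  simp only [map_one, one_mul] at h1
  rw [Complex.conj_I] at h2
  apply hnm
  have h3 : Complex.I * (⟪(T ^ n) x, (T ^ m) y⟫_ℂ - ⟪(T ^ m) x, (T ^ n) y⟫_ℂ) = 0 := by
    rw [h2]; ring
  have h4 := (mul_eq_zero.mp h3).resolve_left Complex.I_ne_zero
  linear_combination (h4 - h1) / 2

/-- A small perturbation lowers the norm when the inner product is nonzero. -/
lemma exists_norm_add_smul_lt (u v : E) (h : ⟪u, v⟫_ℂ ≠ 0) : ∃ c : ℂ, ‖u + c • v‖ < ‖u‖ := by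
  set β := ⟪u, v⟫_ℂ with hβ
  set s : ℝ := 1 / (‖v‖ ^ 2 + 1) with hs
  have hs0 : 0 < s := by positivity
  have hsv : s * ‖v‖ ^ 2 < 1 := by
    rw [hs, div_mul_eq_mul_div, one_mul, div_lt_one (by positivity)]
    linarith
  refine ⟨-(s : ℂ) * conj β, ?_⟩
  apply lt_of_pow_lt_pow_left₀ 2 (norm_nonneg _)
  rw [@norm_add_sq ℂ, inner_smul_right, ← hβ, norm_smul, mul_pow]
  have h1 : RCLike.re (-(s : ℂ) * conj β * β) = -s * ‖β‖ ^ 2 := by
    rw [mul_assoc, Complex.conj_mul']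
    simp only [RCLike.re_to_complex]
    norm_cast
  have h2 : ‖-(s : ℂ) * conj β‖ ^ 2 = s ^ 2 * ‖β‖ ^ 2 := by
    rw [norm_mul, norm_neg, Complex.norm_real, RCLike.norm_conj, Real.norm_eq_abs, abs_of_pos hs0,
      mul_pow]
  rw [h1, h2]
  have hb : 0 < ‖β‖ ^ 2 := by positivity
  have : s ^ 2 * ‖β‖ ^ 2 * ‖v‖ ^ 2 = (s * ‖β‖ ^ 2) * (s * ‖v‖ ^ 2) := by ring
  rw [this]
  have hsb : 0 < s * ‖β‖ ^ 2 := by positivity
  nlinarith

/-- `G` is the normalised reproducing kernel at the origin of `M`. -/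
structure IsKer (M : Submodule ℂ E) (G : E) : Prop where
  mem : G ∈ M
  norm_eq : ‖G‖ = 1
  pos : ∃ r : ℝ, 0 < r ∧ G 0 = r
  repr : ∀ x ∈ M, x 0 = G 0 * ⟪G, x⟫_ℂ

theorem exists_counterexample_shift :
    ∃ (I J : Submodule ℂ E) (G H : E) (n m : ℕ) (a : ℂ),
      IsClosed (I : Set E) ∧ IsClosed (J : Set E) ∧ (∀ x ∈ I, T x ∈ I) ∧ (∀ x ∈ J, T x ∈ J) ∧
      I ≤ J ∧ IsKer I G ∧ IsKer J H ∧ ‖Q n m a G‖ < ‖Q n m a H‖ := by
  obtain ⟨f, g, φ, hf0, hg0, hφg, hf, hg⟩ := exists_triple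
  let J : Submodule ℂ E := ⨅ n : ℕ, LinearMap.ker ((innerSL ℂ φ).comp (T ^ (n + 1))).toLinearMap
  have hJ : ∀ x, x ∈ J ↔ ∀ n, ⟪φ, (T ^ (n + 1)) x⟫_ℂ = 0 := by
    intro x
    simp only [J, Submodule.mem_iInf, LinearMap.mem_ker]
    rfl
  have hJc : IsClosed (J : Set E) := by
    have : (J : Set E) = ⋂ n : ℕ, {x | ⟪φ, (T ^ (n + 1)) x⟫_ℂ = 0} := by
      ext x
      simp [hJ]
    rw [this]
    refine isClosed_iInter fun n => isClosed_eq ?_ continuous_const
    exact continuous_const.inner (T ^ (n + 1)).continuous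
  have hJT : ∀ x ∈ J, T x ∈ J := by
    intro x hx
    rw [hJ] at hx ⊢
    intro n
    have := hx (n + 1)
    rwa [pow_succ, mul_apply_eq_comp] at this
  have : CompleteSpace J := hJc.completeSpace_coe
  have hfJ : f ∈ J := (hJ f).mpr hf
  have hgJ : g ∈ J := (hJ g).mpr hg
  set k : E := J.starProjection (e 0) with hk
  have hkJ : k ∈ J := J.starProjection_apply_mem _
  have hkx : ∀ x ∈ J, ⟪k, x⟫_ℂ = x 0 := by
    intro x hx
    rw [hk, Submodule.inner_starProjection_left_eq_right,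
      Submodule.starProjection_eq_self_iff.mpr hx, inner_e_left]
  have hk0 : k ≠ 0 := by
    intro h
    have := hkx f hfJ
    rw [h, inner_zero_left, hf0] at this
    exact zero_ne_one this
  have hkn : 0 < ‖k‖ := norm_pos_iff.mpr hk0
  have hknC : (‖k‖ : ℂ) ≠ 0 := by exact_mod_cast hkn.ne'
  set H : E := ((‖k‖ : ℂ)⁻¹) • k with hH
  have hHJ : H ∈ J := J.smul_mem _ hkJ
  have hHn : ‖H‖ = 1 := by
    rw [hH, norm_smul, norm_inv, Complex.norm_real, Real.norm_eq_abs, abs_of_pos hkn]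
    exact inv_mul_cancel₀ hkn.ne'
  have hHx : ∀ x ∈ J, ⟪H, x⟫_ℂ = (‖k‖ : ℂ)⁻¹ * x 0 := by
    intro x hx
    rw [hH, inner_smul_left, hkx x hx]
    simp
  have hH0 : H 0 = (‖k‖ : ℂ) := by
    have h1 := hHx H hHJ
    rw [inner_self_eq_norm_sq_to_K, hHn] at h1
    have h2 : (‖k‖ : ℂ) * (((‖k‖ : ℂ)⁻¹) * H 0) = ‖k‖ := by
      rw [← h1]; simp
    rwa [← mul_assoc, mul_inv_cancel₀ hknC, one_mul] at h2
  have hHker : IsKer J H := by
    refine ⟨hHJ, hHn, ⟨‖k‖, hkn, hH0⟩, fun x hx => ?_⟩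
    rw [hHx x hx, hH0, ← mul_assoc, mul_inv_cancel₀ hknC, one_mul]
  set ψ₀ : E := J.starProjection φ with hψ₀
  have hψ₀J : ψ₀ ∈ J := J.starProjection_apply_mem _
  have hψ₀x : ∀ x ∈ J, ⟪ψ₀, x⟫_ℂ = ⟪φ, x⟫_ℂ := by
    intro x hx
    rw [hψ₀, Submodule.inner_starProjection_left_eq_right,
      Submodule.starProjection_eq_self_iff.mpr hx]
  set ψ : E := ψ₀ - ⟪H, ψ₀⟫_ℂ • H with hψ
  have hψJ : ψ ∈ J := J.sub_mem hψ₀J (J.smul_mem _ hHJ)
  have hHψ : ⟪H, ψ⟫_ℂ = 0 := by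
    rw [hψ, inner_sub_right, inner_smul_right, inner_self_eq_norm_sq_to_K, hHn]
    simp
  have hψ0 : ψ 0 = 0 := by
    rw [hHker.repr ψ hψJ, hHψ, mul_zero]
  have hψne : ψ ≠ 0 := by
    intro h
    have h1 : ⟪ψ, g⟫_ℂ = 1 := by
      rw [hψ, inner_sub_left, inner_smul_left, hψ₀x g hgJ, hφg, hHx g hgJ, hg0]
      simp
    rw [h, inner_zero_left] at h1
    exact zero_ne_one h1
  have hHT : ∀ x ∈ J, ⟪H, T x⟫_ℂ = 0 := by
    intro x hx
    rw [hHx _ (hJT x hx), T_apply_zero, mul_zero]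
  have hψT : ∀ x ∈ J, ⟪ψ, T x⟫_ℂ = 0 := by
    intro x hx
    have h0 := (hJ x).mp hx 0
    rw [zero_add, pow_one] at h0
    rw [hψ, inner_sub_left, inner_smul_left, hψ₀x _ (hJT x hx), h0, hHT x hx]
    simp
  obtain ⟨n, m, a, hβ⟩ := exists_Q_inner_ne_zero H ψ (by rw [hH0]; exact hknC) hψne
  obtain ⟨c, hc⟩ := exists_norm_add_smul_lt _ _ hβ
  set G₀ : E := H + c • ψ with hG₀
  have hG₀n : 1 ≤ ‖G₀‖ := by
    apply (pow_le_pow_iff_left₀ (by norm_num) (norm_nonneg _) two_ne_zero).mp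
    rw [hG₀, @norm_add_sq ℂ, inner_smul_right, hHψ, hHn]
    simp
  have hG₀pos : 0 < ‖G₀‖ := by linarith
  set G : E := ((‖G₀‖ : ℂ)⁻¹) • G₀ with hG
  have hG₀J : G₀ ∈ J := J.add_mem hHJ (J.smul_mem _ hψJ)
  have hGJ : G ∈ J := J.smul_mem _ hG₀J
  have hGn : ‖G‖ = 1 := by
    rw [hG, norm_smul, norm_inv, Complex.norm_real, Real.norm_eq_abs, abs_of_pos hG₀pos]
    exact inv_mul_cancel₀ hG₀pos.ne'
  have hG0 : G 0 = ((‖G₀‖⁻¹ * ‖k‖ : ℝ) : ℂ) := by
    rw [hG, hG₀]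
    simp only [lp.coeFn_smul, lp.coeFn_add, Pi.smul_apply, Pi.add_apply, hψ0, hH0]
    simp
  have hGT : ∀ x ∈ J, ⟪G, T x⟫_ℂ = 0 := by
    intro x hx
    rw [hG, inner_smul_left, hG₀, inner_add_left, hHT x hx, inner_smul_left, hψT x hx]
    simp
  let I : Submodule ℂ E :=
    J ⊓ LinearMap.ker (innerSL ℂ (e 0) - G 0 • innerSL ℂ G).toLinearMap
  have hI : ∀ x, x ∈ I ↔ x ∈ J ∧ x 0 = G 0 * ⟪G, x⟫_ℂ := by
    intro x
    simp [I, inner_e_left, sub_eq_zero]
  have hIc : IsClosed (I : Set E) := by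
    have : (I : Set E) = (J : Set E) ∩ {x | ⟪e 0, x⟫_ℂ = G 0 * ⟪G, x⟫_ℂ} := by
      ext x
      simp [hI, inner_e_left]
    rw [this]
    refine hJc.inter (isClosed_eq ?_ ?_)
    · exact continuous_const.inner continuous_id
    · exact continuous_const.mul (continuous_const.inner continuous_id)
  refine ⟨I, J, G, H, n, m, a, hIc, hJc, ?_, hJT, inf_le_left, ?_, hHker, ?_⟩
  · intro x hx
    rw [hI] at hx ⊢
    refine ⟨hJT x hx.1, ?_⟩
    rw [hGT x hx.1, T_apply_zero, mul_zero]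
  · refine ⟨?_, hGn, ⟨_, by positivity, hG0⟩, fun x hx => ((hI x).mp hx).2⟩
    rw [hI]
    refine ⟨hGJ, ?_⟩
    rw [inner_self_eq_norm_sq_to_K, hGn]
    simp
  · rw [hG, map_smul, norm_smul, norm_inv, Complex.norm_real, Real.norm_eq_abs, abs_of_pos hG₀pos]
    have h1 : Q n m a G₀ = Q n m a H + c • Q n m a ψ := by
      rw [hG₀, map_add, map_smul (Q n m a) c ψ]
    rw [h1]
    refine lt_of_le_of_lt ?_ hc
    exact mul_le_of_le_one_left (norm_nonneg _) (inv_le_one_of_one_le₀ hG₀n)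

end Pool.Agent.P.MP_d05361_an
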