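import Mathlib

/-
The Bergman shift as a weighted shift on the Hilbert space of square summable sequences.
-/

set_option autoImplicit false

namespace Pool.Agent.P.MP_d05361_an

open scoped ENNReal InnerProductSpace ComplexConjugate

/-- The coefficient space. -/
abbrev E : Type := lp (fun _ : ℕ => ℂ) 2

/-- The weight of the `n`-th power of the shift at coordinate `j`. -/
noncomputable def W (j n : ℕ) : ℝ := Real.sqrt (((j : ℝ) + 1) / ((j : ℝ) + n + 1))

lemma W_pos (j n : ℕ) : 0 < W j n := by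
  unfold W
  apply Real.sqrt_pos.mpr
  positivity

lemma W_sq (j n : ℕ) : W j n ^ 2 = ((j : ℝ) + 1) / ((j : ℝ) + n + 1) := by
  unfold W
  rw [Real.sq_sqrt]
  positivity

lemma W_le_one (j n : ℕ) : W j n ≤ 1 := by
  unfold W
  rw [Real.sqrt_le_one]
  rw [div_le_one (by positivity)]
  have : (0 : ℝ) ≤ n := by positivity
  linarith

lemma W_zero (j : ℕ) : W j 0 = 1 := by
  unfold W
  have : ((j : ℝ) + 1) / ((j : ℝ) + (0 : ℕ) + 1) = 1 := by
    rw [div_eq_one_iff_eq (by positivity)]
    simp
  rw [this, Real.sqrt_one]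

lemma W_succ (j n : ℕ) : W (j + n) 1 * W j n = W j (n + 1) := by
  unfold W
  rw [← Real.sqrt_mul (by positivity)]
  congr 1
  push_cast
  field_simp
  ring

/-- The shifted sequence. -/
noncomputable def shiftFun (x : ℕ → ℂ) : ℕ → ℂ
  | 0 => 0
  | n + 1 => (W n 1 : ℂ) * x n

lemma summable_sq (x : E) : Summable fun i => ‖x i‖ ^ 2 := by
  have := (lp.memℓp x).summable (by norm_num)
  simpa using this

lemma norm_sq_eq_tsum (x : E) : ‖x‖ ^ 2 = ∑' i, ‖x i‖ ^ 2 := by
  have := lp.norm_rpow_eq_tsum (p := 2) (by norm_num) x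
  simpa using this

lemma norm_shiftFun_succ_le (x : ℕ → ℂ) (n : ℕ) : ‖shiftFun x (n + 1)‖ ≤ ‖x n‖ := by
  simp only [shiftFun, norm_mul, Complex.norm_real, Real.norm_eq_abs, abs_of_pos (W_pos n 1)]
  exact mul_le_of_le_one_left (norm_nonneg _) (W_le_one n 1)

lemma summable_shiftFun (x : E) : Summable fun i => ‖shiftFun x i‖ ^ 2 := by
  rw [← summable_nat_add_iff 1]
  refine Summable.of_nonneg_of_le (fun i => by positivity) (fun i => ?_) (summable_sq x)
  exact pow_le_pow_left₀ (norm_nonneg _) (norm_shiftFun_succ_le x i) 2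

lemma memℓp_shiftFun (x : E) : Memℓp (shiftFun x) 2 := by
  apply memℓp_gen
  simpa using summable_shiftFun x

/-- The shift as a linear map. -/
noncomputable def Tlin : E →ₗ[ℂ] E where
  toFun x := ⟨shiftFun x, memℓp_shiftFun x⟩
  map_add' x y := by
    apply lp.ext
    funext i
    cases i with
    | zero =>
      change shiftFun (x + y) 0 = shiftFun x 0 + shiftFun y 0
      simp [shiftFun]
    | succ n =>
      change shiftFun (x + y) (n + 1) = shiftFun x (n + 1) + shiftFun y (n + 1)
      simp [shiftFun, mul_add]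
  map_smul' c x := by
    apply lp.ext
    funext i
    cases i with
    | zero => simp [shiftFun]
    | succ n => simp [shiftFun]; ring

lemma Tlin_apply (x : E) (i : ℕ) : Tlin x i = shiftFun x i := rfl

lemma norm_Tlin_le (x : E) : ‖Tlin x‖ ≤ 1 * ‖x‖ := by
  rw [one_mul]
  apply (pow_le_pow_iff_left₀ (norm_nonneg _) (norm_nonneg _) two_ne_zero).mp
  rw [norm_sq_eq_tsum, norm_sq_eq_tsum]
  have h1 : Summable fun i => ‖Tlin x i‖ ^ 2 := summable_sq _
  rw [h1.tsum_eq_zero_add]
  have h0 : ‖Tlin x 0‖ ^ 2 = 0 := by simp [Tlin_apply, shiftFun]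
  rw [h0, zero_add]
  refine Summable.tsum_le_tsum (fun i => ?_) ((summable_nat_add_iff 1).mpr h1) (summable_sq x)
  exact pow_le_pow_left₀ (norm_nonneg _) (norm_shiftFun_succ_le x i) 2

/-- The Bergman shift. -/
noncomputable def T : E →L[ℂ] E := Tlin.mkContinuous 1 norm_Tlin_le

lemma T_apply_zero (x : E) : T x 0 = 0 := rfl

lemma T_apply_succ (x : E) (n : ℕ) : T x (n + 1) = (W n 1 : ℂ) * x n := rfl

lemma T_pow_apply_add (x : E) (n j : ℕ) : (T ^ n) x (j + n) = (W j n : ℂ) * x j := by
  induction n with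
  | zero => simp [W_zero]
  | succ n ih =>
    rw [pow_succ', mul_apply_eq_comp, ← add_assoc, T_apply_succ, ih, ← mul_assoc,
      ← Complex.ofReal_mul, W_succ]

lemma T_pow_apply_lt (x : E) (n : ℕ) : ∀ k, k < n → (T ^ n) x k = 0 := by
  induction n with
  | zero => intro k hk; omega
  | succ n ih =>
    intro k hk
    rw [pow_succ', mul_apply_eq_comp]
    cases k with
    | zero => exact T_apply_zero _
    | succ k => rw [T_apply_succ, ih k (by omega), mul_zero]

/-- The standard unit vectors. -/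
noncomputable def e (N : ℕ) : E := lp.single 2 N (1 : ℂ)

lemma inner_e_left (N : ℕ) (x : E) : ⟪e N, x⟫_ℂ = x N := by
  unfold e
  rw [lp.inner_single_left]
  simp

lemma norm_e (N : ℕ) : ‖e N‖ = 1 := by
  unfold e
  rw [lp.norm_single (by norm_num)]
  simp

lemma e_apply (N k : ℕ) : e N k = if k = N then 1 else 0 := by
  unfold e
  rw [lp.single_apply]
  simp [Pi.single_apply]

lemma hasSum_inner' (x y : E) : HasSum (fun i => conj (x i) * y i) ⟪x, y⟫_ℂ := by
  have := lp.hasSum_inner (𝕜 := ℂ) x y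
  simpa [mul_comm] using this

lemma inner_eq_zero_of_disjoint (x y : E) (h : ∀ i, x i = 0 ∨ y i = 0) : ⟪x, y⟫_ℂ = 0 := by
  refine (hasSum_inner' x y).unique ?_
  have : (fun i => conj (x i) * y i) = fun _ => 0 := by
    funext i
    rcases h i with h | h <;> simp [h]
  rw [this]
  exact hasSum_zero

end Pool.Agent.P.MP_d05361_an
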