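import Pool.Agent.P.MP_d05361_an.Hilbert
import Pool.Agent.P.MP_d05361_an.Area

/-
Transfer of the counterexample to holomorphic functions on the disc.
-/

set_option autoImplicit false

namespace Pool.Agent.P.MP_d05361_an

open scoped ENNReal InnerProductSpace ComplexConjugate Real
open Finset Filter Topology MeasureTheory Metric

/-- The squared norm as an area integral. -/
noncomputable def nsq (f : ℂ → ℂ) : ℝ≥0∞ :=
  (ENNReal.ofReal Real.pi)⁻¹ * ∫⁻ z in Metric.ball (0 : ℂ) 1, ‖f z‖ₑ ^ 2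

lemma nsq_eq (f : ℂ → ℂ) : nsq f = eLpNorm f 2 dA ^ 2 := by
  rw [eLpNorm_eq_lintegral_rpow_enorm_toReal (by norm_num) (by norm_num), ← ENNReal.rpow_natCast,
    ← ENNReal.rpow_mul]
  unfold nsq dA
  rw [lintegral_smul_measure]
  simp

lemma nsq_congr {f g : ℂ → ℂ} (h : Set.EqOn f g (ball 0 1)) : nsq f = nsq g := by
  unfold nsq
  congr 1
  refine setLIntegral_congr_fun measurableSet_ball fun z hz => ?_
  simp only [h hz]

lemma nsq_of_eqOn {F : ℂ → ℂ} {x : E} (h : Set.EqOn F (Phi x) (ball 0 1)) : nsq F = ‖x‖ₑ ^ 2 := by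
  rw [nsq_congr h, nsq_eq, eLpNorm_Phi]

/-- The space of functions on the disc given by a space of coefficient sequences. -/
def lift (M : Submodule ℂ E) : Submodule ℂ (ℂ → ℂ) where
  carrier := {F | ∃ x ∈ M, Set.EqOn F (Phi x) (ball 0 1)}
  add_mem' := by
    rintro F G ⟨x, hx, hF⟩ ⟨y, hy, hG⟩
    refine ⟨x + y, M.add_mem hx hy, fun z hz => ?_⟩
    rw [Phi_add x y hz, Pi.add_apply, hF hz, hG hz]
  zero_mem' := by
    refine ⟨0, M.zero_mem, fun z _ => ?_⟩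
    simp [Phi]
  smul_mem' := by
    rintro c F ⟨x, hx, hF⟩
    refine ⟨c • x, M.smul_mem c hx, fun z hz => ?_⟩
    rw [Phi_smul, Pi.smul_apply, hF hz, smul_eq_mul]

lemma mem_lift {M : Submodule ℂ E} {F : ℂ → ℂ} :
    F ∈ lift M ↔ ∃ x ∈ M, Set.EqOn F (Phi x) (ball 0 1) := Iff.rfl

lemma lift_mono {M N : Submodule ℂ E} (h : M ≤ N) : lift M ≤ lift N := by
  rintro F ⟨x, hx, hF⟩
  exact ⟨x, h hx, hF⟩

lemma Phi_mem_lift {M : Submodule ℂ E} {x : E} (hx : x ∈ M) : Phi x ∈ lift M :=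
  ⟨x, hx, fun _ _ => rfl⟩

lemma lift_bergman {M : Submodule ℂ E} {F : ℂ → ℂ} (hF : F ∈ lift M) :
    DifferentiableOn ℂ F (ball 0 1) ∧ nsq F < ⊤ := by
  obtain ⟨x, -, hF⟩ := hF
  refine ⟨(differentiableOn_Phi x).congr hF, ?_⟩
  rw [nsq_of_eqOn hF]
  exact ENNReal.pow_lt_top enorm_lt_top

lemma lift_shift {M : Submodule ℂ E} (hM : ∀ x ∈ M, T x ∈ M) {F : ℂ → ℂ} (hF : F ∈ lift M) :
    (fun z => z * F z) ∈ lift M := by
  obtain ⟨x, hx, hF⟩ := hF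
  refine ⟨T x, hM x hx, fun z hz => ?_⟩
  rw [Phi_T x hz]
  simp only [hF hz]

lemma aesm_of_continuousOn {F : ℂ → ℂ} (hF : ContinuousOn F (ball 0 1)) :
    AEStronglyMeasurable F dA := by
  unfold dA
  exact (hF.aestronglyMeasurable measurableSet_ball).smul_measure _

lemma lift_closed {M : Submodule ℂ E} (hM : IsClosed (M : Set E)) {F : ℂ → ℂ}
    (hF : DifferentiableOn ℂ F (ball 0 1) ∧ nsq F < ⊤)
    (happ : ∀ ε : ℝ≥0∞, 0 < ε → ∃ G ∈ lift M, nsq (F - G) < ε) : F ∈ lift M := by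
  have hmem : MemLp F 2 dA := by
    refine ⟨aesm_of_continuousOn hF.1.continuousOn, ?_⟩
    have := hF.2
    rw [nsq_eq] at this
    exact (ENNReal.pow_lt_top_iff.mp this).resolve_right (by norm_num)
  have hcl : IsClosed (U '' (M : Set E)) :=
    (U.isometry.isClosedEmbedding.isClosedMap) _ hM
  have hin : hmem.toLp F ∈ U '' (M : Set E) := by
    rw [← hcl.closure_eq, EMetric.mem_closure_iff]
    intro ε hε
    obtain ⟨G, ⟨x, hx, hG⟩, hlt⟩ := happ (ε ^ 2) (ENNReal.pow_pos hε 2)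
    refine ⟨U x, ⟨x, hx, rfl⟩, ?_⟩
    rw [nsq_eq] at hlt
    have h1 : eLpNorm (F - G) 2 dA < ε := lt_of_pow_lt_pow_left' 2 hlt
    rw [Lp.edist_def]
    refine lt_of_eq_of_lt (eLpNorm_congr_ae ?_) h1
    filter_upwards [hmem.coeFn_toLp, U_ae_eq x, ae_mem_ball] with z h2 h3 hz
    simp only [Pi.sub_apply, h2, h3, hG hz]
  obtain ⟨x, hx, hxF⟩ := hin
  refine ⟨x, hx, ?_⟩
  have hae : F =ᵐ[dA] Phi x := by
    filter_upwards [hmem.coeFn_toLp, U_ae_eq x] with z h2 h3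
    rw [← h2, ← h3, hxF]
  exact Measure.eqOn_open_of_ae_eq (ae_dA_iff.mp hae) isOpen_ball hF.1.continuousOn
    (differentiableOn_Phi x).continuousOn

lemma norm_le_one_of_nsq {F : ℂ → ℂ} {x : E} (h : Set.EqOn F (Phi x) (ball 0 1))
    (h1 : nsq F ≤ 1) : ‖x‖ ≤ 1 := by
  rw [nsq_of_eqOn h] at h1
  have h2 : ‖x‖ₑ ≤ 1 := by
    by_contra hc
    push Not at hc
    exact absurd h1 (not_le.mpr (one_lt_pow₀ hc (by norm_num)))
  rw [← ofReal_norm] at h2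
  exact (ENNReal.ofReal_le_one).mp h2

lemma lift_extremal {M : Submodule ℂ E} {G : E} (hG : IsKer M G) :
    Phi G ∈ lift M ∧ nsq (Phi G) ≤ 1 ∧
      (∀ F ∈ lift M, nsq F ≤ 1 → (F 0).re ≤ (Phi G 0).re) ∧
      (∀ F ∈ lift M, nsq F ≤ 1 → (F 0).re = (Phi G 0).re → Set.EqOn F (Phi G) (ball 0 1)) := by
  obtain ⟨r, hr, hG0⟩ := hG.pos
  have h0 : (0 : ℂ) ∈ ball (0 : ℂ) 1 := mem_ball_self one_pos
  have hre : ∀ x ∈ M, (x 0).re = r * (⟪G, x⟫_ℂ).re := by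
    intro x hx
    rw [hG.repr x hx, hG0, Complex.re_ofReal_mul]
  refine ⟨Phi_mem_lift hG.mem, ?_, ?_, ?_⟩
  · rw [nsq_of_eqOn (x := G) (fun _ _ => rfl), ← ofReal_norm, hG.norm_eq]
    simp
  · rintro F ⟨x, hx, hF⟩ h1
    have h2 := norm_le_one_of_nsq hF h1
    rw [hF h0, Phi_zero_apply, Phi_zero_apply, hre x hx, hG0, Complex.ofReal_re]
    refine mul_le_of_le_one_right hr.le ?_
    have h3 := re_inner_le_norm (𝕜 := ℂ) G x
    rw [hG.norm_eq, one_mul] at h3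
    exact h3.trans h2
  · rintro F ⟨x, hx, hF⟩ h1 heq
    have h2 := norm_le_one_of_nsq hF h1
    rw [hF h0, Phi_zero_apply, Phi_zero_apply, hre x hx, hG0, Complex.ofReal_re] at heq
    have h3 : (⟪G, x⟫_ℂ).re = 1 := by
      have := mul_left_cancel₀ hr.ne' (heq.trans (mul_one r).symm)
      exact this
    have h4 : ‖G - x‖ ^ 2 ≤ 0 := by
      rw [@norm_sub_sq ℂ, hG.norm_eq]
      have h5 : RCLike.re ⟪G, x⟫_ℂ = 1 := h3
      rw [h5]
      have : ‖x‖ ^ 2 ≤ 1 := pow_le_one₀ (norm_nonneg _) h2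
      linarith
    have h5 : G - x = 0 := by
      rw [← norm_eq_zero]
      exact pow_eq_zero_iff (two_ne_zero) |>.mp (le_antisymm h4 (sq_nonneg _))
    rw [sub_eq_zero.mp h5]
    exact hF

lemma Phi_Q (n m : ℕ) (a : ℂ) (x : E) {z : ℂ} (hz : z ∈ ball (0 : ℂ) 1) :
    Phi (Q n m a x) z = Phi x z * (z ^ n + a * z ^ m) := by
  simp only [Q, add_apply, smul_apply]
  rw [Phi_add _ _ hz, Phi_smul, Phi_T_pow _ _ hz, Phi_T_pow _ _ hz]
  ring

lemma Phi_e_zero (z : ℂ) : Phi (e 0) z = 1 := by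
  unfold Phi
  rw [tsum_eq_single 0]
  · simp [mono, e_apply]
  · intro n hn
    simp [e_apply, hn]

theorem exists_counterexample :
    ∃ (I J : Submodule ℂ (ℂ → ℂ)) (G H : ℂ → ℂ) (h : Polynomial ℂ),
      ((∀ f ∈ I, DifferentiableOn ℂ f (ball 0 1) ∧ nsq f < ⊤) ∧
        (∀ f, (DifferentiableOn ℂ f (ball 0 1) ∧ nsq f < ⊤) →
          (∀ ε : ℝ≥0∞, 0 < ε → ∃ g ∈ I, nsq (f - g) < ε) → f ∈ I) ∧
        (∀ f ∈ I, (fun z => z * f z) ∈ I)) ∧
      ((∀ f ∈ J, DifferentiableOn ℂ f (ball 0 1) ∧ nsq f < ⊤) ∧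
        (∀ f, (DifferentiableOn ℂ f (ball 0 1) ∧ nsq f < ⊤) →
          (∀ ε : ℝ≥0∞, 0 < ε → ∃ g ∈ J, nsq (f - g) < ε) → f ∈ J) ∧
        (∀ f ∈ J, (fun z => z * f z) ∈ J)) ∧
      I ≤ J ∧ (∃ f ∈ I, f 0 ≠ 0) ∧
      (G ∈ I ∧ nsq G ≤ 1 ∧ (∀ f ∈ I, nsq f ≤ 1 → (f 0).re ≤ (G 0).re) ∧
        (∀ f ∈ I, nsq f ≤ 1 → (f 0).re = (G 0).re → Set.EqOn f G (ball 0 1))) ∧
      (H ∈ J ∧ nsq H ≤ 1 ∧ (∀ f ∈ J, nsq f ≤ 1 → (f 0).re ≤ (H 0).re) ∧
        (∀ f ∈ J, nsq f ≤ 1 → (f 0).re = (H 0).re → Set.EqOn f H (ball 0 1))) ∧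
      (DifferentiableOn ℂ (fun z => h.eval z) (ball 0 1) ∧ nsq (fun z => h.eval z) < ⊤) ∧
      nsq (fun z => G z * h.eval z) < nsq (fun z => H z * h.eval z) := by
  obtain ⟨I, J, G, H, n, m, a, hIc, hJc, hIT, hJT, hIJ, hG, hH, hlt⟩ :=
    exists_counterexample_shift
  have hev : ∀ z : ℂ, (Polynomial.X ^ n + Polynomial.C a * Polynomial.X ^ m : Polynomial ℂ).eval z
      = z ^ n + a * z ^ m := by
    intro z
    simp
  refine ⟨lift I, lift J, Phi G, Phi H, Polynomial.X ^ n + Polynomial.C a * Polynomial.X ^ m,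
    ⟨fun f hf => lift_bergman hf, fun f hf => lift_closed hIc hf, fun f hf => lift_shift hIT hf⟩,
    ⟨fun f hf => lift_bergman hf, fun f hf => lift_closed hJc hf, fun f hf => lift_shift hJT hf⟩,
    lift_mono hIJ, ⟨Phi G, Phi_mem_lift hG.mem, ?_⟩, lift_extremal hG, lift_extremal hH, ?_, ?_⟩
  · obtain ⟨r, hr, hG0⟩ := hG.pos
    rw [Phi_zero_apply, hG0]
    exact_mod_cast hr.ne'
  · refine lift_bergman (M := ⊤) ⟨Q n m a (e 0), Submodule.mem_top, fun z hz => ?_⟩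
    rw [Phi_Q _ _ _ _ hz, Phi_e_zero, one_mul]
    exact hev z
  · have h1 : ∀ x : E, nsq (fun z => Phi x z *
        (Polynomial.X ^ n + Polynomial.C a * Polynomial.X ^ m : Polynomial ℂ).eval z) =
        ‖Q n m a x‖ₑ ^ 2 := by
      intro x
      refine nsq_of_eqOn fun z hz => ?_
      rw [Phi_Q _ _ _ _ hz]
      simp only [hev]
    rw [h1, h1]
    refine ENNReal.pow_lt_pow_left (by norm_num) ?_
    rw [← ofReal_norm, ← ofReal_norm]
    exact (ENNReal.ofReal_lt_ofReal_iff_of_nonneg (norm_nonneg _)).mpr hlt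

end Pool.Agent.P.MP_d05361_an
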